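import Pool.Agent.Helper2.EL.Irr

/-!
The `ℓ`-adic side for MP_b8862a_ag: a criterion for potential absolute irreducibility in odd dimension. Every
element of a group of similitudes of an odd-dimensional quadratic space has an eigenvector over the field of
definition; two elements with otherwise irreducible characteristic polynomials and different eigenvectors are
enough.
-/

set_option linter.unusedSectionVars false

open Matrix Polynomial

namespace MH

variable {n : Type*} [Fintype n] [DecidableEq n] {F : Type*} [Field F]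

/-- Some element `g` of `Γ` and all its powers have a characteristic polynomial which is a linear polynomial times
an irreducible one, and for some element `g'` of `Γ` and every positive `N` the matrices `g ^ N` and `g' ^ N` have
no common eigenvector. -/
def HasFrobOdd (Γ : Subgroup (GL n F)) : Prop :=
  ∃ g ∈ Γ, ∃ g' ∈ Γ, ∀ N : ℕ, 0 < N →
    (∃ (c : F) (q : F[X]), Irreducible q ∧ ((g : Matrix n n F) ^ N).charpoly = (X - C c) * q) ∧
      ∀ v : n → F, v ≠ 0 → ¬ ((∃ c : F, ((g : Matrix n n F) ^ N) *ᵥ v = c • v) ∧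
        ∃ c : F, ((g' : Matrix n n F) ^ N) *ᵥ v = c • v)

/-- A subspace stable under such a matrix is contained in the eigenspace or has codimension at most one. -/
private lemma dich98 {A : Matrix n n F} {c : F} {q : F[X]} (hq : Irreducible q)
    (hA : A.charpoly = (X - C c) * q) {W : Submodule F (n → F)} (hW : ∀ w ∈ W, A *ᵥ w ∈ W) :
    (∀ w ∈ W, A *ᵥ w = c • w) ∨ Fintype.card n ≤ Module.finrank F W + 1 := by
  classical
  by_cases hall : ∀ w ∈ W, A *ᵥ w = c • w
  · exact Or.inl hall
  right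
  push Not at hall
  obtain ⟨w, hw, hwc⟩ := hall
  set f : Module.End F (n → F) := Matrix.toLin' A with hf
  have hfA : ∀ u, f u = A *ᵥ u := fun u => Matrix.toLin'_apply A u
  have hpow : ∀ (y : n → F), y ∈ W → ∀ k : ℕ, (f ^ k) y ∈ W := by
    intro y hy k
    induction k with
    | zero => simpa using hy
    | succ k ih =>
      rw [pow_succ', Module.End.mul_apply, hfA]
      exact hW _ ih
  have hmem : ∀ (y : n → F), y ∈ W → ∀ p : F[X], Polynomial.aeval f p y ∈ W := by
    intro y hy p
    induction p using Polynomial.induction_on' with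
    | add p q hp hq =>
      rw [map_add, LinearMap.add_apply]
      exact W.add_mem hp hq
    | monomial k c =>
      rw [Polynomial.aeval_monomial, Module.End.mul_apply, Module.algebraMap_end_apply]
      exact W.smul_mem _ (hpow y hy k)
  have hχ : Polynomial.aeval f A.charpoly = 0 := by
    have h1 := LinearMap.aeval_self_charpoly f
    rwa [hf, Matrix.charpoly_toLin'] at h1
  set y : n → F := Polynomial.aeval f (X - C c) w with hy
  have hyv : y = A *ᵥ w - c • w := by
    rw [hy, map_sub, Polynomial.aeval_X, Polynomial.aeval_C, LinearMap.sub_apply, hfA,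
      Module.algebraMap_end_apply]
  have hy0 : y ≠ 0 := by
    rw [hyv]
    intro h
    exact hwc (sub_eq_zero.1 h)
  have hyW : y ∈ W := hmem w hw _
  have hqy : Polynomial.aeval f q y = 0 := by
    rw [hy, ← Module.End.mul_apply, ← map_mul, mul_comm, ← hA, hχ, LinearMap.zero_apply]
  have hdeg : q.natDegree + 1 = Fintype.card n := by
    have h1 := Matrix.charpoly_natDegree_eq_dim A
    rw [hA, Polynomial.natDegree_mul (Polynomial.X_sub_C_ne_zero c) hq.ne_zero,
      Polynomial.natDegree_X_sub_C] at h1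
    omega
  let Φ : Polynomial.degreeLT F q.natDegree →ₗ[F] (n → F) :=
    (LinearMap.applyₗ y) ∘ₗ (Polynomial.aeval f).toLinearMap ∘ₗ (Submodule.subtype _)
  have hΦ : ∀ p, Φ p = Polynomial.aeval f (p : F[X]) y := fun p => rfl
  have hinj : Function.Injective Φ := by
    rw [← LinearMap.ker_eq_bot, LinearMap.ker_eq_bot']
    rintro ⟨p, hp⟩ h0
    rw [hΦ] at h0
    change Polynomial.aeval f p y = 0 at h0
    apply Subtype.ext
    change p = 0
    by_contra hp0
    rw [Polynomial.mem_degreeLT] at hp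
    have hnd : ¬ q ∣ p := by
      intro hd
      have h1 := Polynomial.degree_le_of_dvd hd hp0
      rw [Polynomial.degree_eq_natDegree hq.ne_zero] at h1
      exact absurd hp (not_lt.mpr h1)
    obtain ⟨u, v, huv⟩ := (hq.coprime_iff_not_dvd.mpr hnd)
    apply hy0
    have h1 : Polynomial.aeval f (u * q + v * p) y = y := by
      rw [huv, map_one, Module.End.one_apply]
    rw [map_add, map_mul, map_mul, LinearMap.add_apply, Module.End.mul_apply, Module.End.mul_apply, hqy, h0,
      map_zero, map_zero, add_zero] at h1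
    exact h1.symm
  have hrange : LinearMap.range Φ ≤ W := by
    rintro _ ⟨p, rfl⟩
    rw [hΦ]
    exact hmem y hyW _
  have hfin : Module.finrank F (Polynomial.degreeLT F q.natDegree) = q.natDegree := by
    rw [(Polynomial.degreeLTEquiv F q.natDegree).finrank_eq, Module.finrank_fin_fun]
  have h2 : q.natDegree ≤ Module.finrank F W := by
    rw [← hfin, ← LinearMap.finrank_range_of_inj hinj]
    exact Submodule.finrank_mono hrange
  omega

/-- A simple eigenvalue: every matrix commuting with `A`, and every subspace of the eigenspace. -/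
private lemma simple98 {A : Matrix n n F} {c : F} {q : F[X]} (hq : Irreducible q)
    (hA : A.charpoly = (X - C c) * q) (hn : 3 ≤ Fintype.card n) :
    ∃ v : n → F, v ≠ 0 ∧ A *ᵥ v = c • v ∧ ∀ u, A *ᵥ u = c • u → ∃ k : F, u = k • v := by
  classical
  have hdeg : q.natDegree + 1 = Fintype.card n := by
    have h1 := Matrix.charpoly_natDegree_eq_dim A
    rw [hA, Polynomial.natDegree_mul (Polynomial.X_sub_C_ne_zero c) hq.ne_zero,
      Polynomial.natDegree_X_sub_C] at h1
    omega
  have hqc : ¬ q.IsRoot c := by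
    intro h
    have h1 := Polynomial.degree_eq_one_of_irreducible_of_root hq h
    have h2 : q.natDegree = 1 := Polynomial.natDegree_eq_of_degree_eq_some (n := 1) (by rw [h1]; rfl)
    omega
  set f : Module.End F (n → F) := Matrix.toLin' A with hf
  have hfA : ∀ u, f u = A *ᵥ u := fun u => Matrix.toLin'_apply A u
  have hmul : A.charpoly.rootMultiplicity c = 1 := by
    rw [hA, Polynomial.rootMultiplicity_mul (by
      rw [← hA]
      exact (Matrix.charpoly_monic A).ne_zero), Polynomial.rootMultiplicity_X_sub_C_self,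
      Polynomial.rootMultiplicity_eq_zero hqc]
  have hfr : Module.finrank F (f.maxGenEigenspace c) = 1 := by
    rw [LinearMap.finrank_maxGenEigenspace_eq, hf, Matrix.charpoly_toLin', hmul]
  obtain ⟨⟨v, hv⟩, hv0, hspan⟩ := finrank_eq_one_iff'.mp hfr
  have hroot : A.charpoly.IsRoot c := by
    rw [← Polynomial.rootMultiplicity_pos (Matrix.charpoly_monic A).ne_zero, hmul]
    exact one_pos
  have hev : f.HasEigenvalue c := by
    rw [Module.End.hasEigenvalue_iff_isRoot_charpoly, hf, Matrix.charpoly_toLin']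
    exact hroot
  obtain ⟨v', hv'⟩ := hev.exists_hasEigenvector
  have hle : ∀ u, A *ᵥ u = c • u → u ∈ f.maxGenEigenspace c := by
    intro u hu
    rw [Module.End.mem_maxGenEigenspace]
    refine ⟨1, ?_⟩
    rw [pow_one, LinearMap.sub_apply, hfA, hu, LinearMap.smul_apply, Module.End.one_apply, sub_self]
  have hv'A : A *ᵥ v' = c • v' := by
    rw [← hfA]
    exact hv'.apply_eq_smul
  obtain ⟨k, hk⟩ := hspan ⟨v', hle v' hv'A⟩
  have hk' : k • v = v' := congrArg Subtype.val hk
  have hk0 : k ≠ 0 := by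
    rintro rfl
    rw [zero_smul] at hk'
    exact hv'.2 hk'.symm
  refine ⟨v', hv'.2, hv'A, fun u hu => ?_⟩
  obtain ⟨j, hj⟩ := hspan ⟨u, hle u hu⟩
  have hj' : j • v = u := congrArg Subtype.val hj
  refine ⟨j * k⁻¹, ?_⟩
  rw [← hk', smul_smul, mul_assoc, inv_mul_cancel₀ hk0, mul_one, hj']

theorem potIrr_of_frobOdd {Q' : Matrix n n F} (hQs : Q'ᵀ = Q') (hQd : Q'.det ≠ 0) {Γ : Subgroup (GL n F)}
    (hsim : ∀ g ∈ Γ, ∃ c : F, (g : Matrix n n F)ᵀ * Q' * (g : Matrix n n F) = c • Q')
    (hn : 3 ≤ Fintype.card n) (h : HasFrobOdd Γ) : PotIrr Γ := by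
  classical
  intro Γ' hle hidx
  obtain ⟨g, hg, g', hg', H⟩ := h
  -- a common exponent
  obtain ⟨N₁, hN₁, -, hgN₁⟩ := Subgroup.exists_pow_mem_of_relIndex_ne_zero hidx hg
  obtain ⟨N₂, hN₂, -, hgN₂⟩ := Subgroup.exists_pow_mem_of_relIndex_ne_zero hidx hg'
  have hN : 0 < N₁ * N₂ := Nat.mul_pos hN₁ hN₂
  have e1 : g ^ (N₁ * N₂) ∈ Γ' := by
    rw [pow_mul]
    exact Γ'.pow_mem hgN₁.1 _
  have e2 : g' ^ (N₁ * N₂) ∈ Γ' := by
    rw [mul_comm, pow_mul]
    exact Γ'.pow_mem hgN₂.1 _
  obtain ⟨⟨c, q, hq, hA⟩, hno⟩ := H _ hN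
  set A : Matrix n n F := (g : Matrix n n F) ^ (N₁ * N₂) with hAdef
  set A' : Matrix n n F := (g' : Matrix n n F) ^ (N₁ * N₂) with hA'def
  have hAW : ∀ W : Submodule F (n → F), (∀ g ∈ Γ', ∀ w ∈ W, (g : Matrix n n F) *ᵥ w ∈ W) →
      (∀ w ∈ W, A *ᵥ w ∈ W) ∧ (∀ w ∈ W, A' *ᵥ w ∈ W) := by
    intro W hW
    constructor
    · intro w hw
      have h1 := hW _ e1 w hw
      rwa [Units.val_pow_eq_pow_val] at h1
    · intro w hw
      have h1 := hW _ e2 w hw
      rwa [Units.val_pow_eq_pow_val] at h1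
  obtain ⟨v, hv0, hv, hvs⟩ := simple98 hq hA hn
  -- no stable subspace in the eigenspace
  have key : ∀ W : Submodule F (n → F), (∀ g ∈ Γ', ∀ w ∈ W, (g : Matrix n n F) *ᵥ w ∈ W) →
      W = ⊥ ∨ Fintype.card n ≤ Module.finrank F W + 1 := by
    intro W hW
    rcases dich98 hq hA (hAW W hW).1 with h1 | h1
    · left
      by_contra hW0
      obtain ⟨w, hw, hw0⟩ := Submodule.exists_mem_ne_zero_of_ne_bot hW0
      have h2 := (hAW W hW).2 w hw
      obtain ⟨k, hk⟩ := hvs w (h1 w hw)
      obtain ⟨j, hj⟩ := hvs _ (h1 _ h2)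
      have hk0 : k ≠ 0 := by
        rintro rfl
        rw [zero_smul] at hk
        exact hw0 hk
      refine hno w hw0 ⟨⟨c, h1 w hw⟩, ⟨j * k⁻¹, ?_⟩⟩
      rw [hj, hk, smul_smul, mul_assoc, inv_mul_cancel₀ hk0, mul_one]
    · exact Or.inr h1
  have hW : ∀ W : Submodule F (n → F), (∀ g ∈ Γ', ∀ w ∈ W, (g : Matrix n n F) *ᵥ w ∈ W) →
      W = ⊥ ∨ W = ⊤ := by
    intro W hW
    rcases key W hW with h1 | h1
    · exact Or.inl h1
    right
    by_contra hWt
    let B : LinearMap.BilinForm F (n → F) := Matrix.toBilin' Q'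
    have hB : ∀ u w, B u w = u ⬝ᵥ (Q' *ᵥ w) := fun u w => Matrix.toBilin'_apply' Q' u w
    have hBs : B.IsSymm := by
      constructor
      intro u w
      rw [hB, hB, Matrix.dotProduct_mulVec, ← Matrix.mulVec_transpose, hQs, dotProduct_comm]
    have hBn : B.Nondegenerate := Matrix.Nondegenerate.toBilin' (Matrix.nondegenerate_of_det_ne_zero hQd)
    have hst : ∀ g ∈ Γ', ∀ w ∈ B.orthogonal W, (g : Matrix n n F) *ᵥ w ∈ B.orthogonal W := by
      intro x hx u hu
      rw [LinearMap.BilinForm.mem_orthogonal_iff] at hu ⊢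
      intro w hw
      obtain ⟨d, hd⟩ := hsim x (hle hx)
      have h2 : ((x⁻¹ : GL n F) : Matrix n n F) *ᵥ w ∈ W := hW _ (Γ'.inv_mem hx) w hw
      have h3 := hu _ h2
      have h4 : (x : Matrix n n F) *ᵥ (((x⁻¹ : GL n F) : Matrix n n F) *ᵥ w) = w := by
        rw [Matrix.mulVec_mulVec, ← Units.val_mul, mul_inv_cancel, Units.val_one, Matrix.one_mulVec]
      change B w ((x : Matrix n n F) *ᵥ u) = 0
      change B _ u = 0 at h3
      rw [← h4]
      rw [hB] at h3 ⊢
      have h5 : ((x : Matrix n n F) *ᵥ (((x⁻¹ : GL n F) : Matrix n n F) *ᵥ w)) ⬝ᵥ (Q' *ᵥ ((x : Matrix n n F) *ᵥ u))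
          = (((x⁻¹ : GL n F) : Matrix n n F) *ᵥ w) ⬝ᵥ (((x : Matrix n n F)ᵀ * Q' * (x : Matrix n n F)) *ᵥ u) := by
        rw [Matrix.mul_assoc, ← Matrix.mulVec_mulVec, ← Matrix.mulVec_mulVec,
          Matrix.dotProduct_mulVec _ (x : Matrix n n F)ᵀ, Matrix.vecMul_transpose]
      rw [h5, hd, Matrix.smul_mulVec, dotProduct_smul, h3, smul_zero]
    have hdim := LinearMap.BilinForm.finrank_orthogonal hBn W
    rw [Module.finrank_fintype_fun_eq_card] at hdim
    have hlt : Module.finrank F W < Fintype.card n := by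
      have h2 := Submodule.finrank_lt hWt
      rwa [Module.finrank_fintype_fun_eq_card] at h2
    rcases key _ hst with h2 | h2
    · rw [h2, finrank_bot] at hdim
      omega
    · omega
  refine ⟨hW, fun T hT => ?_⟩
  have hAT : A * T = T * A := by
    have h1 := hT _ e1
    rwa [Units.val_pow_eq_pow_val] at h1
  obtain ⟨d, hd⟩ := hvs (T *ᵥ v) (by
    rw [Matrix.mulVec_mulVec, hAT, ← Matrix.mulVec_mulVec, hv, Matrix.mulVec_smul])
  let W : Submodule F (n → F) :=
    { carrier := {u | T *ᵥ u = d • u}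
      add_mem' := by
        intro a b ha hb
        simp only [Set.mem_ofPred_eq] at *
        rw [Matrix.mulVec_add, ha, hb, smul_add]
      zero_mem' := by simp
      smul_mem' := by
        intro k a ha
        simp only [Set.mem_ofPred_eq] at *
        rw [Matrix.mulVec_smul, ha, smul_comm] }
  have hWmem : ∀ u, u ∈ W ↔ T *ᵥ u = d • u := fun u => Iff.rfl
  have hWstab : ∀ g ∈ Γ', ∀ w ∈ W, (g : Matrix n n F) *ᵥ w ∈ W := by
    intro g hg w hw
    rw [hWmem] at hw ⊢
    rw [Matrix.mulVec_mulVec, ← hT g hg, ← Matrix.mulVec_mulVec, hw, Matrix.mulVec_smul]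
  have hWtop : W = ⊤ := by
    rcases hW W hWstab with h | h
    · exfalso
      have h1 : v ∈ W := hd
      rw [h, Submodule.mem_bot] at h1
      exact hv0 h1
    · exact h
  refine ⟨d, ?_⟩
  apply Matrix.toLin'.injective
  refine LinearMap.ext fun u => ?_
  have h1 : u ∈ W := by rw [hWtop]; trivial
  rw [Matrix.toLin'_apply, Matrix.toLin'_apply, Matrix.smul_mulVec, Matrix.one_mulVec]
  exact h1

/-- The version for the image of a group over `F` in `GL n ℂ`. -/
theorem IsGal.potIrr_of_frobOdd {m : ℤ} {Q : Matrix n n ℚ} {S : Finset ℤ} {P R : ℤ → Matrix n n ℂ}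
    (H : IsHS m Q S P) (ι : F →+* ℂ) {Γ : Subgroup (GL n F)}
    (G : IsGal m Q S P (Γ.map (Matrix.GeneralLinearGroup.map ι)) R) (hn : 3 ≤ Fintype.card n)
    (h : HasFrobOdd Γ) : PotIrr Γ := by
  classical
  have hdC : (toC Q).det ≠ 0 := by
    obtain ⟨B, Bi, Qi, _, _, h3, _, _⟩ := H.exists_basis
    intro h0
    have := congrArg Matrix.det h3
    rw [Matrix.det_mul, h0, zero_mul, Matrix.det_one] at this
    exact zero_ne_one this
  have : CharZero F := ⟨fun a b hab => by
    have h1 := congrArg ι hab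
    rw [map_natCast, map_natCast] at h1
    exact Nat.cast_injective h1⟩
  set Q' : Matrix n n F := Q.map (algebraMap ℚ F) with hQ'
  have hι : Q'.map ι = toC Q := by
    ext i j
    rw [hQ', Matrix.map_apply, Matrix.map_apply, toC, Matrix.map_apply]
    have h1 : (ι.comp (algebraMap ℚ F)) = algebraMap ℚ ℂ := RingHom.ext fun q => by simp
    exact congrFun (congrArg DFunLike.coe h1) (Q i j)
  have hQs : Q'ᵀ = Q' := by
    have h1 : (Q.map (algebraMap ℚ F))ᵀ = (Qᵀ).map (algebraMap ℚ F) := rfl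
    rw [hQ', h1, H.symm]
  have hQd : Q'.det ≠ 0 := by
    intro h0
    apply hdC
    rw [← hι, ← RingHom.mapMatrix_apply, ← RingHom.map_det, h0, map_zero]
  refine MH.potIrr_of_frobOdd hQs hQd (fun g hg => ?_) hn h
  obtain ⟨z, -, hz⟩ := G.sim _ (Subgroup.mem_map_of_mem _ hg)
  have hex : ∃ i j, Q' i j ≠ 0 := by
    by_contra hcon
    push Not at hcon
    apply hQd
    have h0 : Q' = 0 := by
      ext i j
      exact hcon i j
    have : Nonempty n := Fintype.card_pos_iff.1 (by omega)
    rw [h0, Matrix.det_zero]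
  obtain ⟨i, j, hij⟩ := hex
  set M : Matrix n n F := (g : Matrix n n F)ᵀ * Q' * (g : Matrix n n F) with hM
  have hMι : M.map ι = z ^ 2 • (Q'.map ι) := by
    rw [hι, ← hz, hM, Matrix.map_mul, Matrix.map_mul, hι]
    rfl
  refine ⟨M i j / Q' i j, ?_⟩
  have hz2 : z ^ 2 = ι (M i j / Q' i j) := by
    have h1 := congrFun (congrFun hMι i) j
    rw [Matrix.map_apply, Matrix.smul_apply, Matrix.map_apply, smul_eq_mul] at h1
    rw [map_div₀, h1, mul_div_assoc, div_self (by
      intro h0
      exact hij ((map_eq_zero ι).1 h0)), mul_one]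
  ext k l
  have h1 := congrFun (congrFun hMι k) l
  rw [Matrix.map_apply, Matrix.smul_apply, Matrix.map_apply, smul_eq_mul, hz2, ← map_mul] at h1
  rw [Matrix.smul_apply, smul_eq_mul]
  exact ι.injective h1

end MH
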